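import Pool.Agent.Helper65.KH.Goals

/-!
Project KH (MP_20ee5e_ag), packet BS (helper90): the elements mon b prod L^a span.
-/

set_option autoImplicit false

open MvPolynomial

namespace Pool.Agent.Helper90.KH.BS

open Pool.Agent.Helper65.KH

section

variable {ι : Type} [Fintype ι]

theorem mon_add (p q : ι → ℕ) : mon (p + q) = mon p * mon q := by
  unfold mon
  rw [← Finset.prod_mul_distrib]
  exact Finset.prod_congr rfl fun i _ => pow_add _ _ _

theorem mon_zero : mon (0 : ι → ℕ) = 1 := by simp [mon]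

variable [DecidableEq ι]

theorem w_pos {V : Finset (ι → ℕ)} (hC : Cn V) {w : ι → ℝ} (hw : w ∈ LL V) (i : ι) : 0 < w i := by
  obtain ⟨m, hm, hv⟩ := hC.2 i
  have h1 : (1 : ℝ) ≤ dt w (cv (Pi.single i m)) := hw _ hv
  have h2 : dt w (cv (Pi.single i m)) = w i * m := by
    unfold dt cv
    rw [Finset.sum_eq_single i]
    · rw [Pi.single_eq_same]
    · intro j _ hj
      rw [Pi.single_eq_of_ne hj]
      simp
    · intro h
      exact absurd (Finset.mem_univ i) h
  rw [h2] at h1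
  have h3 : (0 : ℝ) < m := by exact_mod_cast hm
  by_contra hneg
  rw [not_lt] at hneg
  have := mul_nonpos_of_nonpos_of_nonneg hneg h3.le
  linarith

theorem dt_nonneg {V : Finset (ι → ℕ)} (hC : Cn V) {w : ι → ℝ} (hw : w ∈ LL V) {x : ι → ℝ}
    (hx : ∀ i, 0 ≤ x i) : 0 ≤ dt w x :=
  Finset.sum_nonneg fun i _ => mul_nonneg (w_pos hC hw i).le (hx i)

theorem LL_nonempty {V : Finset (ι → ℕ)} (hC : Cn V) : (LL V).Nonempty := by
  refine ⟨fun _ => 1, fun v hv => ?_⟩
  have hne : v ≠ 0 := by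
    rintro rfl
    exact hC.1 hv
  obtain ⟨i, hi⟩ := Function.ne_iff.mp hne
  have h1 : (1 : ℝ) ≤ v i := by
    have : 1 ≤ v i := Nat.one_le_iff_ne_zero.mpr hi
    exact_mod_cast this
  have h2 : dt (fun _ => 1) (cv v) = ∑ i, (v i : ℝ) := by simp [dt, cv]
  rw [h2]
  exact h1.trans (Finset.single_le_sum (f := fun i => (v i : ℝ)) (fun j _ => Nat.cast_nonneg _)
    (Finset.mem_univ i))

theorem rr_le {V : Finset (ι → ℕ)} (hC : Cn V) {w : ι → ℝ} (hw : w ∈ LL V) {x : ι → ℝ}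
    (hx : ∀ i, 0 ≤ x i) : rr V x ≤ dt w x := by
  refine csInf_le ⟨0, ?_⟩ ⟨w, hw, rfl⟩
  rintro y ⟨w', hw', rfl⟩
  exact dt_nonneg hC hw' hx

theorem rr_nonneg {V : Finset (ι → ℕ)} (hC : Cn V) {x : ι → ℝ} (hx : ∀ i, 0 ≤ x i) :
    0 ≤ rr V x := by
  refine le_csInf ((LL_nonempty hC).image _) ?_
  rintro y ⟨w', hw', rfl⟩
  exact dt_nonneg hC hw' hx

theorem dg_add {V : Finset (ι → ℕ)} (hC : Cn V) {θ : ι → ℝ} (hθ : ∀ i, 0 < θ i) (p : ι → ℕ)
    {v : ι → ℕ} (hv : v ∈ V) : dg V θ p + 1 ≤ dg V θ (p + v) := by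
  refine le_csInf ((LL_nonempty hC).image _) ?_
  rintro y ⟨w, hw, rfl⟩
  have h1 : dg V θ p ≤ dt w (fun i => (p i : ℝ) + θ i) :=
    rr_le hC hw fun i => add_nonneg (Nat.cast_nonneg _) (hθ i).le
  have h2 : (1 : ℝ) ≤ dt w (cv v) := hw v hv
  have h3 : dt w (fun i => ((p + v) i : ℝ) + θ i) =
      dt w (fun i => (p i : ℝ) + θ i) + dt w (cv v) := by
    unfold dt cv
    rw [← Finset.sum_add_distrib]
    refine Finset.sum_congr rfl fun i _ => ?_
    change w i * (((p i + v i : ℕ) : ℝ) + θ i) = w i * ((p i : ℝ) + θ i) + w i * (v i : ℝ)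
    push_cast
    ring
  change dg V θ p + 1 ≤ dt w (fun i => ((p + v) i : ℝ) + θ i)
  rw [h3]
  linarith

omit [DecidableEq ι] in
theorem fl_anti {V : Finset (ι → ℕ)} {θ : ι → ℝ} {s t : ℝ} (h : s ≤ t) : fl V θ t ≤ fl V θ s := by
  refine Ideal.span_mono ?_
  rintro f ⟨p, hp, hf⟩
  exact ⟨p, h.trans hp, hf⟩

theorem fl_zero {V : Finset (ι → ℕ)} (hC : Cn V) {θ : ι → ℝ} (hθ : ∀ i, 0 < θ i) :
    fl V θ 0 = ⊤ := by
  rw [Ideal.eq_top_iff_one]
  refine Ideal.subset_span ⟨0, ?_, mon_zero.symm⟩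
  exact rr_nonneg hC fun i => add_nonneg (Nat.cast_nonneg _) (hθ i).le

theorem pow_le {V : Finset (ι → ℕ)} (hC : Cn V) {θ : ι → ℝ} (hθ : ∀ i, 0 < θ i) (r : ℕ) :
    idl (Lp V) ^ r ≤ fl V θ r := by
  induction r with
  | zero =>
    rw [Nat.cast_zero, fl_zero hC hθ]
    exact le_top
  | succ r ih =>
    rw [pow_succ]
    refine (Ideal.mul_mono_left ih).trans ?_
    unfold fl idl
    rw [Ideal.span_mul_span']
    refine Ideal.span_le.mpr ?_
    rintro z ⟨f, ⟨p, hp, rfl⟩, g, ⟨i, rfl⟩, rfl⟩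
    change mon p * Lp V i ∈ _
    unfold Lp
    rw [Finset.mul_sum]
    refine Ideal.sum_mem _ fun v hv => ?_
    rw [mul_smul_comm, MvPolynomial.smul_eq_C_mul]
    refine Ideal.mul_mem_left _ _ (Ideal.subset_span ⟨p + v, ?_, (mon_add p v).symm⟩)
    have := dg_add hC hθ p hv
    push_cast
    linarith

/-- the elements -/
noncomputable def FF (V : Finset (ι → ℕ)) (x : (ι → ℕ) × (ι → ℕ)) : MvPolynomial ι ℚ :=
  mon x.1 * ∏ i, Lp V i ^ x.2 i

theorem FF_mul (V : Finset (ι → ℕ)) (b a : ι → ℕ) (i : ι) :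
    FF V (b, a) * Lp V i = FF V (b, a + Pi.single i 1) := by
  unfold FF
  have h1 : ∏ j, Lp V j ^ (a + Pi.single i 1 : ι → ℕ) j =
      (∏ j, Lp V j ^ a j) * ∏ j, Lp V j ^ (Pi.single i 1 : ι → ℕ) j := by
    rw [← Finset.prod_mul_distrib]
    exact Finset.prod_congr rfl fun j _ => pow_add _ _ _
  have h2 : ∏ j, Lp V j ^ (Pi.single i 1 : ι → ℕ) j = Lp V i := by
    rw [Finset.prod_eq_single i]
    · rw [Pi.single_eq_same, pow_one]
    · intro j _ hj
      rw [Pi.single_eq_of_ne hj, pow_zero]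
    · intro h
      exact absurd (Finset.mem_univ i) h
  rw [h1, h2, mul_assoc]

theorem FF_zero (V : Finset (ι → ℕ)) (b : ι → ℕ) : FF V (b, 0) = mon b := by
  unfold FF
  have : ∏ i, Lp V i ^ (0 : ι → ℕ) i = 1 := Finset.prod_eq_one fun i _ => pow_zero _
  rw [this, mul_one]

/-- the space spanned by the elements with `b` in the box -/
noncomputable def SS (V Box : Finset (ι → ℕ)) : Submodule ℚ (MvPolynomial ι ℚ) :=
  Submodule.span ℚ (FF V '' {x | x.1 ∈ Box})

theorem SS_mul (V Box : Finset (ι → ℕ)) (i : ι) (s : MvPolynomial ι ℚ) (hs : s ∈ SS V Box) :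
    s * Lp V i ∈ SS V Box := by
  unfold SS at hs ⊢
  induction hs using Submodule.span_induction with
  | mem x hx =>
    obtain ⟨⟨b, a⟩, hba, rfl⟩ := hx
    exact Submodule.subset_span ⟨(b, a + Pi.single i 1), hba, (FF_mul V b a i).symm⟩
  | zero => rw [zero_mul]; exact Submodule.zero_mem _
  | add x y _ _ hx hy => rw [add_mul]; exact Submodule.add_mem _ hx hy
  | smul a x _ hx => rw [smul_mul_assoc]; exact Submodule.smul_mem _ _ hx

/-- a decomposition -/
def Dec (V Box : Finset (ι → ℕ)) (I K : Ideal (MvPolynomial ι ℚ)) (g : MvPolynomial ι ℚ) : Prop :=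
  ∃ s ∈ SS V Box, ∃ g' ∈ I, ∃ h ∈ K, g = s + g' + h

theorem Dec.add {V Box : Finset (ι → ℕ)} {I K : Ideal (MvPolynomial ι ℚ)}
    {x y : MvPolynomial ι ℚ} (hx : Dec V Box I K x) (hy : Dec V Box I K y) :
    Dec V Box I K (x + y) := by
  obtain ⟨s1, hs1, g1, hg1, h1, hh1, he1⟩ := hx
  obtain ⟨s2, hs2, g2, hg2, h2, hh2, he2⟩ := hy
  refine ⟨s1 + s2, Submodule.add_mem _ hs1 hs2, g1 + g2, Submodule.add_mem _ hg1 hg2,
    h1 + h2, Submodule.add_mem _ hh1 hh2, ?_⟩
  rw [he1, he2]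
  ring

theorem dec_mul {V Box : Finset (ι → ℕ)} {I K : Ideal (MvPolynomial ι ℚ)}
    {x : MvPolynomial ι ℚ} (hx : Dec V Box I K x) (i : ι) :
    Dec V Box (I * idl (Lp V)) K (x * Lp V i) := by
  obtain ⟨s, hs, g', hg', h, hh, he⟩ := hx
  refine ⟨s * Lp V i, SS_mul V Box i s hs, g' * Lp V i, ?_, h * Lp V i, ?_, ?_⟩
  · exact Ideal.mul_mem_mul hg' (Ideal.subset_span ⟨i, rfl⟩)
  · exact Ideal.mul_mem_right _ _ hh
  · rw [he]
    ring

theorem dec_span {V Box : Finset (ι → ℕ)} {I J K : Ideal (MvPolynomial ι ℚ)}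
    (hI : ∀ x ∈ J, Dec V Box I K x) {y : MvPolynomial ι ℚ} (hy : y ∈ idl (Lp V)) :
    ∀ x ∈ J, Dec V Box (I * idl (Lp V)) K (x * y) := by
  unfold idl at hy
  induction hy using Submodule.span_induction with
  | mem y hy =>
    obtain ⟨i, rfl⟩ := hy
    intro x hx
    exact dec_mul (hI x hx) i
  | zero =>
    intro x _
    refine ⟨0, Submodule.zero_mem _, 0, Submodule.zero_mem _, 0, Submodule.zero_mem _, ?_⟩
    rw [mul_zero, add_zero, add_zero]
  | add y z _ _ hy hz =>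
    intro x hx
    rw [mul_add]
    exact (hy x hx).add (hz x hx)
  | smul a y _ hy =>
    intro x hx
    have := hy (x * a) (Ideal.mul_mem_right _ _ hx)
    rwa [mul_assoc] at this

end

theorem t (hSP2 : S_SP2) : S_BS := by
  intro ι _ _ V θ Box hC hG hGd hBox t f
  have hθ : ∀ i, 0 < θ i := fun i => (hGd.1 i).1
  -- the step
  have hstep : ∀ r : ℕ, ∀ g ∈ idl (Lp V) ^ r, Dec V Box (idl (Lp V) ^ (r + 1)) (fl V θ t) g := by
    intro r
    induction r with
    | zero =>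
      intro g _
      obtain ⟨c, hc⟩ := hSP2 ι V θ Box hC hG hGd hBox t g
      obtain ⟨g', hg', h, hh, he⟩ := Submodule.mem_sup.mp hc
      refine ⟨∑ b ∈ Box, c b • mon b, ?_, g', ?_, h, hh, ?_⟩
      · refine Submodule.sum_mem _ fun b hb => Submodule.smul_mem _ _ ?_
        exact Submodule.subset_span ⟨(b, 0), hb, FF_zero V b⟩
      · rw [zero_add, pow_one]
        exact hg'
      · rw [add_assoc, he]
        ring
    | succ r ih =>
      intro g hg
      rw [pow_succ] at hg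
      rw [pow_succ (idl (Lp V)) (r + 1)]
      refine Submodule.mul_induction_on hg ?_ fun x y hx hy => hx.add hy
      intro x hx y hy
      exact dec_span ih hy x hx
  have hall : ∀ r : ℕ, Dec V Box (idl (Lp V) ^ r) (fl V θ t) f := by
    intro r
    induction r with
    | zero =>
      refine ⟨0, Submodule.zero_mem _, f, ?_, 0, Submodule.zero_mem _, ?_⟩
      · rw [pow_zero, Ideal.one_eq_top]
        exact Submodule.mem_top
      · rw [zero_add, add_zero]
    | succ r ih =>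
      obtain ⟨s, hs, g, hg, h, hh, he⟩ := ih
      obtain ⟨s', hs', g', hg', h', hh', he'⟩ := hstep r g hg
      refine ⟨s + s', Submodule.add_mem _ hs hs', g', hg', h' + h, Submodule.add_mem _ hh' hh, ?_⟩
      rw [he, he']
      ring
  obtain ⟨r, hr⟩ := exists_nat_ge t
  obtain ⟨s, hs, g, hg, h, hh, he⟩ := hall r
  have hg' : g ∈ fl V θ t := fl_anti hr (pow_le hC hθ r hg)
  unfold SS at hs
  rw [Finsupp.mem_span_image_iff_linearCombination] at hs
  obtain ⟨l, hl, hls⟩ := hs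
  refine ⟨l.support, l, ?_, ?_⟩
  · intro x hx
    have h1 := (Finsupp.mem_supported (M := ℚ) ℚ l).mp hl (Finset.mem_coe.mpr hx)
    exact h1
  · have h1 : ∑ x ∈ l.support, l x • (mon x.1 * ∏ i, Lp V i ^ x.2 i) = s := by
      rw [← hls, Finsupp.linearCombination_apply, Finsupp.sum]
      rfl
    rw [h1, he]
    have h2 : s + g + h - s = g + h := by ring
    rw [h2]
    exact Submodule.add_mem _ hg' hh

end Pool.Agent.Helper90.KH.BS
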